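import Mathlib
import Pool.Agent.TH407.MV.Defs
set_option autoImplicit false

/-!
# The planar `L⁴` bound: arcs and dyadic shells (helper857)
-/

namespace Pool.Agent.TH857.MV7

open Pool.Agent.TH407 Pool.Agent.TH407.MV
open MeasureTheory Set Complex
open scoped ENNReal NNReal Real ComplexConjugate

/-- `|y|²` -/
def qq (y : ℝ × ℝ) : ℝ := y.1 ^ 2 + y.2 ^ 2

/-- the rotated and scaled coordinates -/
noncomputable def cr (δ c : ℝ) (y : ℝ × ℝ) : ℝ × ℝ :=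
  (y.1 * Real.cos c + y.2 * Real.sin c, δ * (-(y.1 * Real.sin c) + y.2 * Real.cos c))

/-- the parametrization of the angles -/
noncomputable def Th (δ c x : ℝ) : ℝ := c + Real.arctan (δ * x)

lemma dt_Th (δ c x : ℝ) (hδ : δ ≠ 0) (y : ℝ × ℝ) : dt y (Th δ c x) = wv δ (cr δ c y) x := by
  unfold dt Th wv cd cr
  rw [Real.cos_add, Real.sin_add, Real.cos_arctan, Real.sin_arctan]
  have h1 : (δ * x) ^ 2 = δ ^ 2 * x ^ 2 := by ring
  have h2 : 0 < √(1 + δ ^ 2 * x ^ 2) := Real.sqrt_pos.mpr (by positivity)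
  rw [h1]
  field_simp
  ring

lemma qq_cr (δ c : ℝ) (y : ℝ × ℝ) :
    (cr δ c y).2 ^ 2 + δ ^ 2 * (cr δ c y).1 ^ 2 = δ ^ 2 * qq y := by
  unfold cr qq
  simp only
  have := Real.sin_sq_add_cos_sq c
  linear_combination (δ ^ 2 * (y.1 ^ 2 + y.2 ^ 2)) * this

lemma dt_sq_le (y : ℝ × ℝ) (θ : ℝ) : dt y θ ^ 2 ≤ qq y := by
  unfold dt qq
  have := Real.sin_sq_add_cos_sq θ
  nlinarith [sq_nonneg (y.1 * Real.sin θ - y.2 * Real.cos θ)]

lemma sin_bound {y : ℝ × ℝ} {Y θ1 θ2 : ℝ} (h1 : |dt y θ1| ≤ Y)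
    (h2 : |dt y θ2| ≤ Y) : qq y * Real.sin (θ2 - θ1) ^ 2 ≤ 4 * Y ^ 2 := by
  have hq : 0 ≤ qq y := by unfold qq; positivity
  rcases eq_or_lt_of_le hq with h0 | h0
  · rw [← h0, zero_mul]; positivity
  have s1 := Real.sin_sq_add_cos_sq θ1
  have s2 := Real.sin_sq_add_cos_sq θ2
  set p1 := dt y θ1 with hp1
  set p2 := dt y θ2 with hp2
  set q1 := y.1 * Real.sin θ1 - y.2 * Real.cos θ1 with hq1
  set q2 := y.1 * Real.sin θ2 - y.2 * Real.cos θ2 with hq2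
  have e1 : p1 ^ 2 + q1 ^ 2 = qq y := by
    rw [hp1, hq1]; unfold dt qq
    linear_combination (y.1 ^ 2 + y.2 ^ 2) * s1
  have e2 : p2 ^ 2 + q2 ^ 2 = qq y := by
    rw [hp2, hq2]; unfold dt qq
    linear_combination (y.1 ^ 2 + y.2 ^ 2) * s2
  have e3 : qq y * Real.sin (θ2 - θ1) = p1 * q2 - p2 * q1 := by
    rw [hp1, hq1, hp2, hq2, Real.sin_sub]; unfold dt qq
    ring
  have b1 : p1 ^ 2 ≤ Y ^ 2 := sq_le_sq' (by linarith [(abs_le.mp h1).1]) (abs_le.mp h1).2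
  have b2 : p2 ^ 2 ≤ Y ^ 2 := sq_le_sq' (by linarith [(abs_le.mp h2).1]) (abs_le.mp h2).2
  have b3 : (p1 * q2 - p2 * q1) ^ 2 ≤ 2 * (p1 ^ 2 * q2 ^ 2) + 2 * (p2 ^ 2 * q1 ^ 2) := by
    nlinarith [sq_nonneg (p1 * q2 + p2 * q1)]
  have b4 : p1 ^ 2 * q2 ^ 2 ≤ Y ^ 2 * qq y :=
    mul_le_mul b1 (by nlinarith [sq_nonneg p2]) (sq_nonneg _) (sq_nonneg _)
  have b5 : p2 ^ 2 * q1 ^ 2 ≤ Y ^ 2 * qq y :=
    mul_le_mul b2 (by nlinarith [sq_nonneg p1]) (sq_nonneg _) (sq_nonneg _)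
  have b6 : qq y * (qq y * Real.sin (θ2 - θ1) ^ 2) ≤ qq y * (4 * Y ^ 2) := by
    have : qq y * (qq y * Real.sin (θ2 - θ1) ^ 2) = (p1 * q2 - p2 * q1) ^ 2 := by
      rw [← e3]; ring
    rw [this]
    nlinarith
  exact le_of_mul_le_mul_left b6 h0

/-- points of `(-π, π]` with small sine of the difference -/
lemma near_pi {θ1 θ2 s : ℝ} (h1 : θ1 ∈ Ioc (-π) π) (h2 : θ2 ∈ Ioc (-π) π)
    (hs : |Real.sin (θ2 - θ1)| ≤ s) :
    ∃ k ∈ Finset.Icc (-2 : ℤ) 2, |θ2 - (θ1 + k * π)| ≤ π / 2 * s := by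
  have hpi := Real.pi_pos
  refine ⟨round ((θ2 - θ1) / π), ?_, ?_⟩
  · rw [Finset.mem_Icc]
    have a1 : (θ2 - θ1) / π < 2 := by
      rw [div_lt_iff₀ hpi]; linarith [h1.1, h2.2]
    have a2 : -2 < (θ2 - θ1) / π := by
      rw [lt_div_iff₀ hpi]; linarith [h1.2, h2.1]
    have a3 := abs_sub_round ((θ2 - θ1) / π)
    rw [abs_le] at a3
    constructor
    · have : (-3 : ℝ) < (round ((θ2 - θ1) / π) : ℝ) := by linarith
      have : (-3 : ℤ) < round ((θ2 - θ1) / π) := by exact_mod_cast this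
      omega
    · have : (round ((θ2 - θ1) / π) : ℝ) < 3 := by linarith
      have : round ((θ2 - θ1) / π) < (3 : ℤ) := by exact_mod_cast this
      omega
  · set k := round ((θ2 - θ1) / π) with hk
    have a3 := abs_sub_round ((θ2 - θ1) / π)
    rw [← hk] at a3
    have a4 : |θ2 - θ1 - k * π| ≤ π / 2 := by
      have : θ2 - θ1 - k * π = ((θ2 - θ1) / π - k) * π := by field_simp
      rw [this, abs_mul, abs_of_pos hpi]
      nlinarith
    have a5 := Real.mul_abs_le_abs_sin a4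
    rw [Real.sin_sub_int_mul_pi, abs_mul] at a5
    have a6 : |((-1 : ℝ)) ^ k| = 1 := by
      rw [abs_zpow]; simp
    rw [a6, one_mul] at a5
    have a7 : |θ2 - (θ1 + k * π)| = |θ2 - θ1 - k * π| := by congr 1; ring
    rw [a7]
    have a8 : 2 / π * |θ2 - θ1 - k * π| ≤ s := a5.trans hs
    rw [div_mul_eq_mul_div, div_le_iff₀ hpi] at a8
    linarith

lemma card_near (S : Finset ℕ) (c K : ℝ) (h : ∀ i ∈ S, |(i : ℝ) - c| ≤ K) :
    S.card ≤ ⌊2 * K⌋₊ + 1 := by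
  rcases S.eq_empty_or_nonempty with rfl | hne
  · simp
  set m := S.min' hne with hm
  have h0 : S ⊆ Finset.Icc m (m + ⌊2 * K⌋₊) := by
    intro i hi
    rw [Finset.mem_Icc]
    have h1 : m ≤ i := Finset.min'_le S i hi
    refine ⟨h1, ?_⟩
    have h2 := h i hi
    have h3 := h m (Finset.min'_mem S hne)
    rw [abs_le] at h2 h3
    have h4 : ((i - m : ℕ) : ℝ) ≤ 2 * K := by
      rw [Nat.cast_sub h1]; linarith
    have h5 : i - m ≤ ⌊2 * K⌋₊ := Nat.le_floor h4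
    omega
  refine (Finset.card_le_card h0).trans ?_
  rw [Nat.card_Icc]
  omega

/-- the number of arcs -/
lemma count {Y Y1 δ h : ℝ} (hY1 : 0 < Y1) (hY : 0 ≤ Y) (hδ : 0 < δ) (hh : 0 < h) {n : ℕ}
    (hn : (n : ℝ) * h = π) {y : ℝ × ℝ} (hy : Y1 ^ 2 ≤ δ ^ 2 * qq y) (S : Finset ℕ)
    (hS : ∀ i ∈ S, i < n ∧ ∃ θ ∈ Ioc (-π + 2 * i * h) (-π + 2 * (i + 1) * h), |dt y θ| ≤ Y) :
    S.card ≤ 5 * (⌊2 * (π * Y * δ / Y1 / (2 * h) + 1)⌋₊ + 1) := by
  classical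
  rcases S.eq_empty_or_nonempty with rfl | hne
  · simp
  obtain ⟨i0, hi0⟩ := hne
  obtain ⟨hi0n, θ1, hθ1, hd1⟩ := hS i0 hi0
  have hpi := Real.pi_pos
  have hin : ∀ i : ℕ, i < n → ∀ θ ∈ Ioc (-π + 2 * i * h) (-π + 2 * (i + 1) * h),
      θ ∈ Ioc (-π) π := by
    intro i hi θ hθ
    have a1 : (0 : ℝ) ≤ 2 * i * h := by positivity
    have a2 : ((i : ℝ) + 1) ≤ n := by exact_mod_cast hi
    have a3 : ((i : ℝ) + 1) * h ≤ n * h := mul_le_mul_of_nonneg_right a2 hh.le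
    constructor
    · linarith [hθ.1]
    · have := hθ.2
      nlinarith
  have hq : 0 < qq y := by
    have : 0 < δ ^ 2 * qq y := lt_of_lt_of_le (by positivity) hy
    exact (mul_pos_iff_of_pos_left (by positivity)).mp this
  set f : ℤ → Finset ℕ := fun k => S.filter fun i =>
    |(i : ℝ) - (θ1 + k * π + π) / (2 * h)| ≤ π * Y * δ / Y1 / (2 * h) + 1 with hf
  have hsub : S ⊆ (Finset.Icc (-2 : ℤ) 2).biUnion f := by
    intro i hi
    obtain ⟨hin', θ2, hθ2, hd2⟩ := hS i hi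
    have b1 := sin_bound hd1 hd2
    have b2 : |Real.sin (θ2 - θ1)| ≤ 2 * Y * δ / Y1 := by
      apply abs_le_of_sq_le_sq _ (by positivity)
      rw [div_pow, le_div_iff₀ (by positivity)]
      have : Real.sin (θ2 - θ1) ^ 2 * Y1 ^ 2 ≤ Real.sin (θ2 - θ1) ^ 2 * (δ ^ 2 * qq y) :=
        mul_le_mul_of_nonneg_left hy (sq_nonneg _)
      have c : Real.sin (θ2 - θ1) ^ 2 * (δ ^ 2 * qq y) =
        δ ^ 2 * (qq y * Real.sin (θ2 - θ1) ^ 2) := by ring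
      nlinarith [mul_le_mul_of_nonneg_left b1 (sq_nonneg δ)]
    obtain ⟨k, hk, hk2⟩ := near_pi (hin i0 hi0n θ1 hθ1) (hin i hin' θ2 hθ2) b2
    rw [Finset.mem_biUnion]
    refine ⟨k, hk, ?_⟩
    rw [hf, Finset.mem_filter]
    refine ⟨hi, ?_⟩
    have c1 : (i : ℝ) - (θ1 + k * π + π) / (2 * h) =
        (θ2 - (θ1 + k * π)) / (2 * h) + (i - (θ2 + π) / (2 * h)) := by field_simp; ring
    have c2 : |(i : ℝ) - (θ2 + π) / (2 * h)| ≤ 1 := by
      rw [abs_le]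
      constructor
      · have : (θ2 + π) / (2 * h) ≤ i + 1 := by
          rw [div_le_iff₀ (by positivity)]; linarith [hθ2.2]
        linarith
      · have : (i : ℝ) ≤ (θ2 + π) / (2 * h) := by
          rw [le_div_iff₀ (by positivity)]; linarith [hθ2.1]
        linarith
    rw [c1]
    refine (abs_add_le _ _).trans (add_le_add ?_ c2)
    rw [abs_div, abs_of_pos (by positivity : (0 : ℝ) < 2 * h)]
    refine div_le_div_of_nonneg_right (hk2.trans (le_of_eq ?_)) (by positivity)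
    ring
  refine (Finset.card_le_card hsub).trans ?_
  have hcard : ∀ k ∈ Finset.Icc (-2 : ℤ) 2,
      (f k).card ≤ ⌊2 * (π * Y * δ / Y1 / (2 * h) + 1)⌋₊ + 1 := fun k _ =>
    card_near (f k) ((θ1 + k * π + π) / (2 * h)) _ fun i hi => (Finset.mem_filter.mp hi).2
  have := Finset.card_biUnion_le_card_mul (Finset.Icc (-2 : ℤ) 2) f _ hcard
  simpa using this

end Pool.Agent.TH857.MV7
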