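import Mathlib
import Pool.Agent.TH857.MV.Arcs
set_option autoImplicit false

/-!
# The planar `L⁴` bound: arcs and dyadic shells (helper857)
-/

namespace Pool.Agent.TH857.MV7

open Pool.Agent.TH407 Pool.Agent.TH407.MV
open MeasureTheory Set Complex
open scoped ENNReal NNReal Real ComplexConjugate

/-- the coordinates as an equivalence -/
noncomputable def crE (δ c : ℝ) (hδ : δ ≠ 0) : (ℝ × ℝ) ≃ᵐ (ℝ × ℝ) where
  toFun := cr δ c
  invFun := fun z => (z.1 * Real.cos c - z.2 / δ * Real.sin c, z.1 * Real.sin c + z.2 / δ * Real.cos c)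
  left_inv := by
    intro y
    have := Real.sin_sq_add_cos_sq c
    unfold cr
    ext
    · simp only
      field_simp
      linear_combination (y.1) * this
    · simp only
      field_simp
      linear_combination (y.2) * this
  right_inv := by
    intro y
    have := Real.sin_sq_add_cos_sq c
    unfold cr
    ext
    · simp only
      field_simp
      linear_combination (δ * y.1) * this
    · simp only
      field_simp
      linear_combination (y.2) * this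
  measurable_toFun := by
    show Measurable (cr δ c)
    unfold cr
    fun_prop
  measurable_invFun := by
    show Measurable fun z : ℝ × ℝ => (z.1 * Real.cos c - z.2 / δ * Real.sin c,
      z.1 * Real.sin c + z.2 / δ * Real.cos c)
    fun_prop

lemma cr_lintegral (δ c : ℝ) (hδ : 0 < δ) (f : ℝ × ℝ → ℝ≥0∞) :
    ∫⁻ y, f (cr δ c y) = ENNReal.ofReal δ⁻¹ * ∫⁻ z, f z := by
  set L : ℝ × ℝ →ₗ[ℝ] ℝ × ℝ := Matrix.toLin (Module.Basis.finTwoProd ℝ) (Module.Basis.finTwoProd ℝ)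
    !![Real.cos c, Real.sin c; -(δ * Real.sin c), δ * Real.cos c] with hL
  have hdet : LinearMap.det L = δ := by
    rw [hL, LinearMap.det_toLin, Matrix.det_fin_two_of]
    have := Real.sin_sq_add_cos_sq c
    linear_combination δ * this
  have hLc : (L : ℝ × ℝ → ℝ × ℝ) = cr δ c := by
    funext y
    rw [hL, Matrix.toLin_finTwoProd_apply]
    unfold cr
    ext
    · simp only; ring
    · simp only; ring
  have h1 := Measure.map_linearMap_addHaar_eq_smul_addHaar (volume : Measure (ℝ × ℝ)) (f := L)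
    (by rw [hdet]; exact hδ.ne')
  rw [hdet, hLc, abs_of_pos (inv_pos.mpr hδ)] at h1
  have h2 := (crE δ c hδ.ne').measurableEmbedding.lintegral_map (μ := volume) f
  have h3 : ((crE δ c hδ.ne' : (ℝ × ℝ) ≃ᵐ (ℝ × ℝ)) : ℝ × ℝ → ℝ × ℝ) = cr δ c := rfl
  rw [h3, h1, lintegral_smul_measure] at h2
  rw [← h2]
  rfl

lemma Th_deriv (δ c x : ℝ) : HasDerivAt (Th δ c) (δ / (1 + (δ * x) ^ 2)) x := by
  unfold Th
  have h1 : HasDerivAt (fun x => δ * x) δ x := by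
    simpa using (hasDerivAt_id x).const_mul δ
  have h2 : HasDerivAt (fun x => c + Real.arctan (δ * x)) (1 / (1 + (δ * x) ^ 2) * δ) x :=
    (h1.arctan).const_add c
  have h3 : δ / (1 + (δ * x) ^ 2) = 1 / (1 + (δ * x) ^ 2) * δ := by ring
  rw [h3]
  exact h2

lemma Th_inj (δ c : ℝ) (hδ : 0 < δ) : Function.Injective (Th δ c) := by
  intro x y h
  unfold Th at h
  have h1 : Real.arctan (δ * x) = Real.arctan (δ * y) := by linarith
  have h2 := Real.arctan_injective h1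
  exact mul_left_cancel₀ hδ.ne' h2

lemma Th_surj {δ c θ : ℝ} (hδ : 0 < δ) (h1 : -(π / 2) < θ - c) (h2 : θ - c < π / 2) :
    Th δ c (Real.tan (θ - c) / δ) = θ := by
  unfold Th
  rw [mul_div_cancel₀ _ hδ.ne', Real.arctan_tan h1 h2]
  ring

lemma tan_le {u : ℝ} (h0 : 0 ≤ u) (h1 : u ≤ 1 / 2) : Real.tan u ≤ 2 * u := by
  rw [Real.tan_eq_sin_div_cos]
  have h2 : 1 / 2 ≤ Real.cos u := by
    have := Real.one_sub_sq_div_two_le_cos (x := u)
    nlinarith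
  rw [div_le_iff₀ (by linarith)]
  have := Real.sin_le h0
  nlinarith

lemma abs_tan_le {u k : ℝ} (hk : k ≤ 1 / 2) (hu : |u| ≤ k) : |Real.tan u| ≤ 2 * k := by
  rcases le_total 0 u with h | h
  · rw [abs_of_nonneg h] at hu
    rw [abs_of_nonneg (Real.tan_nonneg_of_nonneg_of_le_pi_div_two h
      (by linarith [Real.pi_gt_three]))]
    linarith [tan_le h (hu.trans hk)]
  · rw [abs_of_nonpos h] at hu
    have h3 : 0 ≤ Real.tan (-u) := Real.tan_nonneg_of_nonneg_of_le_pi_div_two (by linarith)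
      (by linarith [Real.pi_gt_three])
    rw [← abs_neg, ← Real.tan_neg, abs_of_nonneg h3]
    linarith [tan_le (by linarith : 0 ≤ -u) (hu.trans hk)]

section arc

variable {δ c h : ℝ} (hδ : 0 < δ) (hδ1 : δ ≤ 1) (hh : 0 < h) {r : ℝ} (hr : 2 * h ≤ δ * r)
  (hr1 : r ≤ 1 / 4)

/-- the arc -/
def arc (c h : ℝ) : Set ℝ := Ioc (c - h) (c + h)

lemma arc_meas (c h : ℝ) : MeasurableSet (arc c h) := measurableSet_Ioc

include hδ hδ1 hr hr1 in
lemma h_le : h ≤ 1 / 8 := by nlinarith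

include hδ hδ1 hr hr1 in
lemma arc_im : Th δ c '' (Th δ c ⁻¹' arc c h) = arc c h := by
  rw [image_preimage_eq_iff]
  intro θ hθ
  have h8 := h_le hδ hδ1 hr hr1
  have hpi := Real.pi_gt_three
  exact ⟨_, Th_surj hδ (by linarith [hθ.1]) (by linarith [hθ.2])⟩

include hδ hδ1 hr hr1 in
lemma arc_x {x : ℝ} (hx : Th δ c x ∈ arc c h) : |x| ≤ r := by
  have h8 := h_le hδ hδ1 hr hr1
  unfold Th arc at hx
  have h1 : |Real.arctan (δ * x)| ≤ h := by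
    rw [abs_le]
    exact ⟨by linarith [hx.1], by linarith [hx.2]⟩
  have h2 := abs_tan_le (by linarith) h1
  rw [Real.tan_arctan, abs_mul, abs_of_pos hδ] at h2
  exact le_of_mul_le_mul_left (h2.trans hr) hδ

/-- the transplanted density -/
noncomputable def Gi (δ c h : ℝ) (g : ℝ → ℂ) : ℝ → ℂ :=
  (Th δ c ⁻¹' arc c h).indicator fun x => ((δ / (1 + (δ * x) ^ 2) : ℝ) : ℂ) * g (Th δ c x)

lemma Th_cont (δ c : ℝ) : Continuous (Th δ c) := by
  unfold Th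
  fun_prop

lemma Gi_meas (δ c h : ℝ) {g : ℝ → ℂ} (hg : Measurable g) : Measurable (Gi δ c h g) := by
  unfold Gi
  refine Measurable.indicator ?_ ((Th_cont δ c).measurable (arc_meas c h))
  refine Measurable.mul ?_ (hg.comp (Th_cont δ c).measurable)
  exact Complex.measurable_ofReal.comp (by fun_prop)

include hδ in
lemma jac_le (x : ℝ) : δ / (1 + (δ * x) ^ 2) ≤ δ := by
  rw [div_le_iff₀ (by positivity)]
  nlinarith [sq_nonneg (δ * x), mul_nonneg hδ.le (sq_nonneg (δ * x))]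

include hδ in
lemma Gi_bd {g : ℝ → ℂ} {B : ℝ≥0} (hB : ∀ θ, ‖g θ‖ₑ ≤ B) (x : ℝ) :
    ‖Gi δ c h g x‖ₑ ≤ ((δ.toNNReal * B : ℝ≥0) : ℝ≥0∞) := by
  unfold Gi
  by_cases hx : x ∈ Th δ c ⁻¹' arc c h
  · rw [indicator_of_mem hx, enorm_mul, ENNReal.coe_mul]
    refine mul_le_mul' ?_ (hB _)
    rw [← ofReal_norm, Complex.norm_real, Real.norm_of_nonneg (by positivity)]
    exact ENNReal.ofReal_le_ofReal (jac_le hδ x)
  · rw [indicator_of_notMem hx]
    simp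

include hδ hδ1 hr hr1 in
lemma Gi_supp (g : ℝ → ℂ) (x : ℝ) (hx : r < |x|) : Gi δ c h g x = 0 := by
  unfold Gi
  apply indicator_of_notMem
  intro h1
  exact absurd (arc_x hδ hδ1 hr hr1 h1) (not_le.mpr hx)

include hδ hδ1 hr hr1 in
lemma Gi_sq (g : ℝ → ℂ) :
    ∫⁻ x, ‖Gi δ c h g x‖ₑ ^ 2 ≤ ENNReal.ofReal δ * ∫⁻ θ in arc c h, ‖g θ‖ₑ ^ 2 := by
  have h1 := lintegral_image_eq_lintegral_abs_deriv_mul (s := Th δ c ⁻¹' arc c h)
    ((Th_cont δ c).measurable (arc_meas c h)) (fun x _ => (Th_deriv δ c x).hasDerivWithinAt)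
    (Th_inj δ c hδ).injOn (fun θ => ‖g θ‖ₑ ^ 2)
  rw [arc_im hδ hδ1 hr hr1] at h1
  rw [h1, ← lintegral_const_mul' _ _ ENNReal.ofReal_ne_top,
    ← lintegral_indicator ((Th_cont δ c).measurable (arc_meas c h))]
  refine lintegral_mono fun x => ?_
  unfold Gi
  by_cases hx : x ∈ Th δ c ⁻¹' arc c h
  · rw [indicator_of_mem hx, indicator_of_mem hx, enorm_mul, mul_pow, ← mul_assoc]
    refine mul_le_mul' ?_ le_rfl
    have h2 : (0 : ℝ) ≤ δ / (1 + (δ * x) ^ 2) := by positivity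
    rw [← ofReal_norm, Complex.norm_real, Real.norm_of_nonneg h2, abs_of_nonneg h2, sq]
    exact mul_le_mul' (ENNReal.ofReal_le_ofReal (jac_le hδ x)) le_rfl
  · rw [indicator_of_notMem hx, indicator_of_notMem hx]
    simp

include hδ hδ1 hr hr1 in
lemma arc_TT (A : ℝ → ℂ) (ε t : ℝ) (g : ℝ → ℂ) (y : ℝ × ℝ) :
    ∫ θ in arc c h, cexp (I * ((t * ph ε (dt y θ) : ℝ) : ℂ)) * (A (dt y θ) * g θ) =
      TT A δ ε t (Gi δ c h g) (cr δ c y) := by
  have h1 := integral_image_eq_integral_abs_deriv_smul (s := Th δ c ⁻¹' arc c h)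
    ((Th_cont δ c).measurable (arc_meas c h)) (fun x _ => (Th_deriv δ c x).hasDerivWithinAt)
    (Th_inj δ c hδ).injOn
    (fun θ => cexp (I * ((t * ph ε (dt y θ) : ℝ) : ℂ)) * (A (dt y θ) * g θ))
  rw [arc_im hδ hδ1 hr hr1] at h1
  rw [h1, ← integral_indicator ((Th_cont δ c).measurable (arc_meas c h))]
  unfold TT
  congr 1
  funext x
  unfold Gi
  by_cases hx : x ∈ Th δ c ⁻¹' arc c h
  · rw [indicator_of_mem hx, indicator_of_mem hx, dt_Th δ c x hδ.ne',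
      abs_of_nonneg (by positivity : (0 : ℝ) ≤ δ / (1 + (δ * x) ^ 2)), Complex.real_smul]
    ring
  · rw [indicator_of_notMem hx, indicator_of_notMem hx, mul_zero, mul_zero]

end arc

/-- the set of `CompL4` -/
def Sset (Y Y1 δ : ℝ) : Set (ℝ × ℝ) :=
  {y | Y1 / 2 ≤ y.1 ∧ y.1 ≤ 2 * Y + 2 * Y1 ∧ |y.2| ≤ 2 * Y1 ∧
    Y1 ^ 2 / (1 + (2 * Y + 2 * Y1) ^ 2) ≤ y.2 ^ 2 + δ ^ 2}

lemma Sset_meas (Y Y1 δ : ℝ) : MeasurableSet (Sset Y Y1 δ) := by
  have a1 : IsClosed {y : ℝ × ℝ | Y1 / 2 ≤ y.1} := isClosed_le (by fun_prop) (by fun_prop)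
  have a2 : IsClosed {y : ℝ × ℝ | y.1 ≤ 2 * Y + 2 * Y1} :=
    isClosed_le (by fun_prop) (by fun_prop)
  have a3 : IsClosed {y : ℝ × ℝ | |y.2| ≤ 2 * Y1} := isClosed_le (by fun_prop) (by fun_prop)
  have a4 : IsClosed {y : ℝ × ℝ | Y1 ^ 2 / (1 + (2 * Y + 2 * Y1) ^ 2) ≤ y.2 ^ 2 + δ ^ 2} :=
    isClosed_le (by fun_prop) (by fun_prop)
  exact a1.measurableSet.inter (a2.measurableSet.inter (a3.measurableSet.inter a4.measurableSet))

/-- the shell -/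
def Zs (Y1 δ : ℝ) : Set (ℝ × ℝ) := {y | Y1 ^ 2 ≤ δ ^ 2 * qq y ∧ δ ^ 2 * qq y < 4 * Y1 ^ 2}

lemma Zs_meas (Y1 δ : ℝ) : MeasurableSet (Zs Y1 δ) := by
  have a1 : IsClosed {y : ℝ × ℝ | Y1 ^ 2 ≤ δ ^ 2 * (y.1 ^ 2 + y.2 ^ 2)} :=
    isClosed_le (by fun_prop) (by fun_prop)
  have a2 : IsOpen {y : ℝ × ℝ | δ ^ 2 * (y.1 ^ 2 + y.2 ^ 2) < 4 * Y1 ^ 2} :=
    isOpen_lt (by fun_prop) (by fun_prop)
  exact a1.measurableSet.inter a2.measurableSet

/-- the parameters are in the compact set -/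
lemma mem_Sset {Y Y1 δ c x r : ℝ} (hY1 : 0 < Y1) (hδ : 0 < δ) (hδ1 : δ ≤ 1)
    (hr1 : r ≤ 1 / 4) {y : ℝ × ℝ} (hy : y ∈ Zs Y1 δ) (hx : |x| ≤ r)
    (hd : dt y (Th δ c x) ∈ Icc Y1 Y) : cr δ c y ∈ Sset Y Y1 δ := by
  have e1 := qq_cr δ c y
  rw [dt_Th δ c x hδ.ne'] at hd
  obtain ⟨hy1, hy2⟩ := hy
  rw [← e1] at hy1 hy2
  set a := (cr δ c y).1 with ha
  set b := (cr δ c y).2 with hb
  have hb2 : |b| ≤ 2 * Y1 := by
    apply abs_le_of_sq_le_sq _ (by positivity)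
    nlinarith [sq_nonneg (δ * a)]
  have hxb : |x * b| ≤ Y1 / 2 := by
    rw [abs_mul]
    calc |x| * |b| ≤ 1 / 4 * (2 * Y1) :=
          mul_le_mul (hx.trans hr1) hb2 (abs_nonneg _) (by norm_num)
      _ = Y1 / 2 := by ring
  rw [abs_le] at hxb
  unfold wv cd at hd
  set s := √(1 + δ ^ 2 * x ^ 2) with hs
  have hx2 : x ^ 2 ≤ 1 := by
    rw [← sq_abs]
    nlinarith [abs_nonneg x]
  have hδ2 : δ ^ 2 ≤ 1 := by nlinarith
  have hs1 : 1 ≤ s := by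
    rw [hs]
    apply Real.one_le_sqrt.mpr
    nlinarith [mul_nonneg (sq_nonneg δ) (sq_nonneg x)]
  have hs2 : s ≤ 2 := by
    rw [hs]
    apply Real.sqrt_le_iff.mpr
    refine ⟨by norm_num, ?_⟩
    nlinarith [mul_le_mul hδ2 hx2 (sq_nonneg x) (by norm_num)]
  have hs0 : 0 < s := by linarith
  obtain ⟨hd1, hd2⟩ := hd
  have hd3 : s⁻¹ * (a + x * b) = (a + x * b) / s := by rw [div_eq_inv_mul]
  rw [hd3] at hd1 hd2
  rw [le_div_iff₀ hs0] at hd1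
  rw [div_le_iff₀ hs0] at hd2
  have hYY : Y1 ≤ Y := by
    by_contra hcon
    push Not at hcon
    nlinarith
  have hab1 : Y1 ≤ a + x * b := by nlinarith
  have hab2 : a + x * b ≤ 2 * Y := by nlinarith
  have ha1 : Y1 / 2 ≤ a := by linarith [hxb.2]
  have ha2 : a ≤ 2 * Y + 2 * Y1 := by linarith [hxb.1]
  refine ⟨ha1, ha2, hb2, ?_⟩
  rw [div_le_iff₀ (by positivity)]
  have ha3 : a ^ 2 ≤ (2 * Y + 2 * Y1) ^ 2 := by nlinarith
  have : δ ^ 2 * a ^ 2 ≤ δ ^ 2 * (2 * Y + 2 * Y1) ^ 2 := mul_le_mul_of_nonneg_left ha3 (sq_nonneg _)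
  nlinarith [sq_nonneg b, mul_nonneg (sq_nonneg b) (sq_nonneg (2 * Y + 2 * Y1)), sq_nonneg δ]

/-- the bound for one arc -/
lemma arc_bd {Y Y1 δ c h r : ℝ} (hY1 : 0 < Y1) (hδ : 0 < δ) (hδ1 : δ ≤ 1)
    (hr : 2 * h ≤ δ * r) (hr1 : r ≤ 1 / 4) {A : ℝ → ℂ} (hA : ∀ y, y ∉ Icc Y1 Y → A y = 0)
    (ε t : ℝ) {K : ℝ≥0∞}
    (H : ∀ (G : ℝ → ℂ) (B : ℝ≥0), Measurable G → (∀ x, r < |x| → G x = 0) →
      (∀ x, ‖G x‖ₑ ≤ B) → ∫⁻ y in Sset Y Y1 δ, ‖TT A δ ε t G y‖ₑ ^ 4 ≤ K * B ^ 2 * ∫⁻ x, ‖G x‖ₑ ^ 2)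
    {g : ℝ → ℂ} {B : ℝ≥0} (hg : Measurable g) (hB : ∀ θ, ‖g θ‖ₑ ≤ B) :
    ∫⁻ y in Zs Y1 δ, ‖∫ θ in arc c h, cexp (I * ((t * ph ε (dt y θ) : ℝ) : ℂ)) *
      (A (dt y θ) * g θ)‖ₑ ^ 4 ≤
      ENNReal.ofReal (δ ^ 2) * (K * B ^ 2 * ∫⁻ θ in arc c h, ‖g θ‖ₑ ^ 2) := by
  have h1 := H (Gi δ c h g) (δ.toNNReal * B) (Gi_meas δ c h hg) (Gi_supp hδ hδ1 hr hr1 g)
    (Gi_bd hδ hB)
  calc ∫⁻ y in Zs Y1 δ, ‖∫ θ in arc c h, cexp (I * ((t * ph ε (dt y θ) : ℝ) : ℂ)) *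
      (A (dt y θ) * g θ)‖ₑ ^ 4
      ≤ ∫⁻ y, (Sset Y Y1 δ).indicator (fun z => ‖TT A δ ε t (Gi δ c h g) z‖ₑ ^ 4)
          (cr δ c y) := by
        rw [← lintegral_indicator (Zs_meas Y1 δ)]
        refine lintegral_mono fun y => ?_
        by_cases hy : y ∈ Zs Y1 δ
        · rw [indicator_of_mem hy, arc_TT hδ hδ1 hr hr1]
          by_cases hF : TT A δ ε t (Gi δ c h g) (cr δ c y) = 0
          · rw [hF]
            simp
          · have h2 : cr δ c y ∈ Sset Y Y1 δ := by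
              rw [← arc_TT hδ hδ1 hr hr1] at hF
              by_contra hcon
              apply hF
              rw [← arc_im hδ hδ1 hr hr1 (c := c) (h := h)]
              apply setIntegral_eq_zero_of_forall_eq_zero
              rintro θ ⟨x, hx, rfl⟩
              have h3 : A (dt y (Th δ c x)) = 0 := by
                apply hA
                intro h4
                exact hcon (mem_Sset hY1 hδ hδ1 hr1 hy (arc_x hδ hδ1 hr hr1 hx) h4)
              rw [h3, zero_mul, mul_zero]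
            rw [indicator_of_mem h2]
        · rw [indicator_of_notMem hy]
          exact zero_le
    _ = ENNReal.ofReal δ⁻¹ * ∫⁻ z in Sset Y Y1 δ, ‖TT A δ ε t (Gi δ c h g) z‖ₑ ^ 4 := by
        rw [cr_lintegral δ c hδ, lintegral_indicator (Sset_meas Y Y1 δ)]
    _ ≤ ENNReal.ofReal δ⁻¹ * (K * ((δ.toNNReal * B : ℝ≥0) : ℝ≥0∞) ^ 2 *
          (ENNReal.ofReal δ * ∫⁻ θ in arc c h, ‖g θ‖ₑ ^ 2)) :=
        mul_le_mul' le_rfl (h1.trans (mul_le_mul' le_rfl (Gi_sq hδ hδ1 hr hr1 g)))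
    _ = ENNReal.ofReal (δ ^ 2) * (K * B ^ 2 * ∫⁻ θ in arc c h, ‖g θ‖ₑ ^ 2) := by
        have h5 : ENNReal.ofReal δ⁻¹ * ENNReal.ofReal δ = 1 := by
          rw [← ENNReal.ofReal_mul (by positivity), inv_mul_cancel₀ hδ.ne', ENNReal.ofReal_one]
        have h6 : ENNReal.ofReal (δ ^ 2) = ENNReal.ofReal δ ^ 2 := ENNReal.ofReal_pow hδ.le 2
        have h7 : ((δ.toNNReal * B : ℝ≥0) : ℝ≥0∞) = ENNReal.ofReal δ * B := by
          rw [ENNReal.coe_mul]; rfl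
        rw [h6, h7]
        calc ENNReal.ofReal δ⁻¹ * (K * (ENNReal.ofReal δ * ↑B) ^ 2 *
              (ENNReal.ofReal δ * ∫⁻ θ in arc c h, ‖g θ‖ₑ ^ 2))
            = (ENNReal.ofReal δ⁻¹ * ENNReal.ofReal δ) * (ENNReal.ofReal δ ^ 2 *
              (K * B ^ 2 * ∫⁻ θ in arc c h, ‖g θ‖ₑ ^ 2)) := by ring
          _ = _ := by rw [h5, one_mul]

lemma sum4 {s : Finset ℕ} (F : ℕ → ℂ) {N : ℕ} (hN : (s.filter fun i => F i ≠ 0).card ≤ N) :
    ‖∑ i ∈ s, F i‖ₑ ^ 4 ≤ (N : ℝ≥0∞) ^ 3 * ∑ i ∈ s, ‖F i‖ₑ ^ 4 := by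
  classical
  have h1 : ∑ i ∈ s, F i = ∑ i ∈ s.filter (fun i => F i ≠ 0), F i :=
    (Finset.sum_filter_ne_zero s).symm
  rw [h1]
  have h2 := ENNReal.rpow_sum_le_const_mul_sum_rpow (s.filter fun i => F i ≠ 0)
    (fun i => ‖F i‖ₑ) (p := 4) (by norm_num)
  have h3 : ((4 : ℝ) - 1) = ((3 : ℕ) : ℝ) := by norm_num
  have h4 : (4 : ℝ) = ((4 : ℕ) : ℝ) := by norm_num
  rw [h3, h4] at h2
  simp only [ENNReal.rpow_natCast] at h2
  calc ‖∑ i ∈ s.filter (fun i => F i ≠ 0), F i‖ₑ ^ 4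
      ≤ (∑ i ∈ s.filter (fun i => F i ≠ 0), ‖F i‖ₑ) ^ 4 := by
        gcongr
        exact enorm_sum_le _ _
    _ ≤ _ := h2
    _ ≤ _ := by
        refine mul_le_mul' ?_ ?_
        · gcongr
        · exact Finset.sum_le_sum_of_subset (Finset.filter_subset _ _)

lemma sum_arcs (f : ℝ → ℝ≥0∞) (a : ℕ → ℝ) (ha : Monotone a) (n : ℕ) :
    ∑ i ∈ Finset.range n, ∫⁻ θ in Ioc (a i) (a (i + 1)), f θ = ∫⁻ θ in Ioc (a 0) (a n), f θ := by
  induction n with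
  | zero => simp
  | succ n ih =>
    rw [Finset.sum_range_succ, ih, ← Ioc_union_Ioc_eq_Ioc (ha (Nat.zero_le n)) (ha (Nat.le_succ n)),
      lintegral_union measurableSet_Ioc]
    rw [Set.Ioc_disjoint_Ioc]
    exact (min_le_left _ _).trans (le_max_right _ _)

lemma integrand_meas {A : ℝ → ℂ} (hA : Continuous A) (ε t : ℝ) {g : ℝ → ℂ} (hg : Measurable g) :
    Measurable fun p : (ℝ × ℝ) × ℝ => cexp (I * ((t * ph ε (dt p.1 p.2) : ℝ) : ℂ)) *
      (A (dt p.1 p.2) * g p.2) := by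
  have h1 : Continuous fun p : (ℝ × ℝ) × ℝ => dt p.1 p.2 := by
    unfold dt
    fun_prop
  have h2 : Continuous fun v : ℝ => ph ε v := by
    unfold ph
    refine Continuous.div (by fun_prop) (by fun_prop) fun x => ?_
    have := Real.sqrt_nonneg (1 + ε ^ 2 * x ^ 2)
    positivity
  have h3 : Continuous fun p : (ℝ × ℝ) × ℝ => cexp (I * ((t * ph ε (dt p.1 p.2) : ℝ) : ℂ)) :=
    Complex.continuous_exp.comp (continuous_const.mul (Complex.continuous_ofReal.comp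
      (continuous_const.mul (h2.comp h1))))
  exact h3.measurable.mul ((hA.comp h1).measurable.mul (hg.comp measurable_snd))

/-- the bound on one shell -/
lemma shell_bd {Y Y1 δ h0 r : ℝ} (hY1 : 0 < Y1) (hY : 0 ≤ Y) (hδ : 0 < δ) (hδ1 : δ ≤ 1)
    (hh0 : 0 < h0) (hr : 2 * h0 ≤ r) (hr1 : r ≤ 1 / 4) {n : ℕ} (hn : (n : ℝ) * (δ * h0) = π)
    {A : ℝ → ℂ} (hAc : Continuous A) (hAb : ∀ y, ‖A y‖ ≤ 1)
    (hA : ∀ y, y ∉ Icc Y1 Y → A y = 0) (ε t : ℝ) {K : ℝ≥0∞}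
    (H : ∀ (G : ℝ → ℂ) (B : ℝ≥0), Measurable G → (∀ x, r < |x| → G x = 0) →
      (∀ x, ‖G x‖ₑ ≤ B) → ∫⁻ y in Sset Y Y1 δ, ‖TT A δ ε t G y‖ₑ ^ 4 ≤ K * B ^ 2 * ∫⁻ x, ‖G x‖ₑ ^ 2)
    {g : ℝ → ℂ} {B : ℝ≥0} (hg : Measurable g) (hB : ∀ θ, ‖g θ‖ₑ ≤ B) :
    ∫⁻ y in Zs Y1 δ, ‖∫ θ in Ioo (-π) π, cexp (I * ((t * ph ε (dt y θ) : ℝ) : ℂ)) *
      (A (dt y θ) * g θ)‖ₑ ^ 4 ≤
      ((5 * (⌊2 * (π * Y / Y1 / (2 * h0) + 1)⌋₊ + 1) : ℕ) : ℝ≥0∞) ^ 3 *
        (ENNReal.ofReal (δ ^ 2) * (K * B ^ 2 * ∫⁻ θ in Ioo (-π) π, ‖g θ‖ₑ ^ 2)) := by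
  classical
  set N : ℕ := 5 * (⌊2 * (π * Y / Y1 / (2 * h0) + 1)⌋₊ + 1) with hN
  set h := δ * h0 with hh
  have hhp : 0 < h := mul_pos hδ hh0
  have hrh : 2 * h ≤ δ * r := by rw [hh]; nlinarith
  set a : ℕ → ℝ := fun i => -π + 2 * i * h with ha
  set c : ℕ → ℝ := fun i => -π + 2 * i * h + h with hc
  have harc : ∀ i, arc (c i) h = Ioc (a i) (a (i + 1)) := by
    intro i
    unfold arc
    simp only [hc, ha]
    congr 1
    · ring
    · push_cast; ring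
  have hmono : Monotone a := by
    intro i k hik
    simp only [ha]
    have : (i : ℝ) ≤ k := by exact_mod_cast hik
    nlinarith
  have ha0 : a 0 = -π := by simp [ha]
  have han : a n = π := by simp only [ha]; linarith
  obtain ⟨f, hf⟩ : ∃ f : ℝ × ℝ → ℝ → ℂ, ∀ y θ, cexp (I * ((t * ph ε (dt y θ) : ℝ) : ℂ)) *
      (A (dt y θ) * g θ) = f y θ := ⟨_, fun _ _ => rfl⟩
  have hfm : Measurable fun p : (ℝ × ℝ) × ℝ => f p.1 p.2 := by
    have h1 := integrand_meas hAc ε t hg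
    simp only [hf] at h1
    exact h1
  have harcb : ∀ i, ∫⁻ y in Zs Y1 δ, ‖∫ θ in arc (c i) h, f y θ‖ₑ ^ 4 ≤
      ENNReal.ofReal (δ ^ 2) * (K * B ^ 2 * ∫⁻ θ in arc (c i) h, ‖g θ‖ₑ ^ 2) := by
    intro i
    have h1 := arc_bd (c := c i) hY1 hδ hδ1 hrh hr1 hA ε t H hg hB
    simp only [hf] at h1
    exact h1
  simp only [hf]
  have hf0 : ∀ y θ, A (dt y θ) = 0 → f y θ = 0 := by
    intro y θ h1
    rw [← hf, h1, zero_mul, mul_zero]
  have hfb : ∀ y θ, ‖f y θ‖ ≤ B := by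
    intro y θ
    rw [← hf]
    rw [norm_mul, norm_mul]
    have e1 : ‖cexp (I * ((t * ph ε (dt y θ) : ℝ) : ℂ))‖ = 1 := by
      rw [mul_comm]
      exact Complex.norm_exp_ofReal_mul_I _
    have e2 : ‖g θ‖ ≤ B := by
      have := hB θ
      rw [← ofReal_norm, ← ENNReal.ofReal_coe_nnreal] at this
      exact (ENNReal.ofReal_le_ofReal_iff B.2).mp this
    rw [e1, one_mul]
    calc ‖A (dt y θ)‖ * ‖g θ‖ ≤ 1 * B := mul_le_mul (hAb _) e2 (norm_nonneg _) zero_le_one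
      _ = B := one_mul _
  have hsplit : ∀ y, ∫ θ in Ioo (-π) π, f y θ =
      ∑ i ∈ Finset.range n, ∫ θ in arc (c i) h, f y θ := by
    intro y
    have hint : ∀ p q : ℝ, IntervalIntegrable (f y) volume p q := by
      intro p q
      have h1 : Measurable (f y) := hfm.comp measurable_prodMk_left
      refine ⟨?_, ?_⟩
      · refine Measure.integrableOn_of_bounded (M := B) (by simp) h1.aestronglyMeasurable
          (Filter.Eventually.of_forall fun θ => hfb y θ)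
      · refine Measure.integrableOn_of_bounded (M := B) (by simp) h1.aestronglyMeasurable
          (Filter.Eventually.of_forall fun θ => hfb y θ)
    have h1 := intervalIntegral.sum_integral_adjacent_intervals (a := a) (n := n)
      (fun k _ => hint (a k) (a (k + 1)))
    rw [ha0, han, intervalIntegral.integral_of_le (by linarith [Real.pi_pos]),
      integral_Ioc_eq_integral_Ioo] at h1
    rw [← h1]
    refine Finset.sum_congr rfl fun i _ => ?_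
    rw [harc, intervalIntegral.integral_of_le (hmono (Nat.le_succ i))]
  have hpt : ∀ y ∈ Zs Y1 δ, ‖∫ θ in Ioo (-π) π, f y θ‖ₑ ^ 4 ≤
      (N : ℝ≥0∞) ^ 3 * ∑ i ∈ Finset.range n, ‖∫ θ in arc (c i) h, f y θ‖ₑ ^ 4 := by
    intro y hy
    rw [hsplit]
    apply sum4
    have h1 := count hY1 hY hδ hhp hn hy.1
      ((Finset.range n).filter fun i => (∫ θ in arc (c i) h, f y θ) ≠ 0) (by
      intro i hi
      rw [Finset.mem_filter, Finset.mem_range] at hi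
      refine ⟨hi.1, ?_⟩
      by_contra hcon
      push Not at hcon
      apply hi.2
      rw [harc]
      apply setIntegral_eq_zero_of_forall_eq_zero
      intro θ hθ
      have h2 : A (dt y θ) = 0 := by
        apply hA
        intro h3
        have h4 := hcon θ (by simpa only [ha, Nat.cast_add, Nat.cast_one] using hθ)
        rw [abs_of_pos (by linarith [h3.1])] at h4
        linarith [h3.2]
      exact hf0 y θ h2)
    have h5 : π * Y * δ / Y1 / (2 * h) = π * Y / Y1 / (2 * h0) := by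
      rw [hh]; field_simp
    rw [h5] at h1
    exact h1
  have hFm : ∀ i, Measurable fun y => ‖∫ θ in arc (c i) h, f y θ‖ₑ ^ 4 := by
    intro i
    have h1 : StronglyMeasurable fun y => ∫ θ in arc (c i) h, f y θ :=
      hfm.stronglyMeasurable.integral_prod_right (ν := volume.restrict (arc (c i) h))
    exact (h1.measurable.enorm).pow_const 4
  calc ∫⁻ y in Zs Y1 δ, ‖∫ θ in Ioo (-π) π, f y θ‖ₑ ^ 4
      ≤ ∫⁻ y in Zs Y1 δ, (N : ℝ≥0∞) ^ 3 *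
          ∑ i ∈ Finset.range n, ‖∫ θ in arc (c i) h, f y θ‖ₑ ^ 4 :=
        setLIntegral_mono' (Zs_meas Y1 δ) hpt
    _ = (N : ℝ≥0∞) ^ 3 * ∑ i ∈ Finset.range n,
          ∫⁻ y in Zs Y1 δ, ‖∫ θ in arc (c i) h, f y θ‖ₑ ^ 4 := by
        rw [lintegral_const_mul' _ _ (by finiteness), lintegral_finsetSum _ fun i _ => hFm i]
    _ ≤ (N : ℝ≥0∞) ^ 3 * ∑ i ∈ Finset.range n,
          ENNReal.ofReal (δ ^ 2) * (K * B ^ 2 * ∫⁻ θ in arc (c i) h, ‖g θ‖ₑ ^ 2) := by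
        gcongr with i hi
        exact harcb i
    _ = _ := by
        rw [← Finset.mul_sum, ← Finset.mul_sum]
        have h1 := sum_arcs (fun θ => ‖g θ‖ₑ ^ 2) a hmono n
        rw [ha0, han, ← restrict_Ioo_eq_restrict_Ioc] at h1
        simp only [harc]
        rw [h1]

theorem mainL4_of (h6 : CompL4) : MainL4 := by
  intro Y1 Y2 A0 hY1
  set Y := max Y1 Y2 with hYdef
  have hYY1 : Y1 ≤ Y := le_max_left _ _
  have hY : 0 ≤ Y := by linarith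
  obtain ⟨r6, C6, hr60, hr61, H6⟩ := h6 (Y1 / 2) (2 * Y + 2 * Y1) (2 * Y1)
    (Y1 ^ 2 / (1 + (2 * Y + 2 * Y1) ^ 2)) A0 (by positivity) (by positivity)
  set r := min r6 (1 / 4) with hr
  have hr0 : 0 < r := lt_min hr60 (by norm_num)
  have hr1 : r ≤ 1 / 4 := min_le_right _ _
  have hpi := Real.pi_pos
  set n0 : ℕ := ⌈2 * π / r⌉₊ with hn0
  have hn0r : 2 * π / r ≤ n0 := Nat.le_ceil _
  have hn0p : 0 < (n0 : ℝ) := lt_of_lt_of_le (by positivity) hn0r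
  set h0 : ℝ := π / n0 with hh0
  have hh0p : 0 < h0 := by positivity
  have hh0r : 2 * h0 ≤ r := by
    rw [hh0]
    rw [div_le_iff₀ hr0] at hn0r
    have : 2 * (π / n0) = 2 * π / n0 := by ring
    rw [this, div_le_iff₀ hn0p]
    linarith
  set N : ℕ := 5 * (⌊2 * (π * Y / Y1 / (2 * h0) + 1)⌋₊ + 1) with hN
  refine ⟨2 * N ^ 3 * C6, ?_⟩
  intro ε t hε hεA ht A hAC hA g B hg hB
  obtain ⟨A1, A2, hA2, hA1, hA1', hAb⟩ := hAC
  have hAc : Continuous A := continuous_iff_continuousAt.mpr fun y => (hA1 y).continuousAt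
  have hA' : ∀ y, y ∉ Icc Y1 Y → A y = 0 := fun y hy =>
    hA y fun h => hy ⟨h.1, h.2.trans (le_max_right _ _)⟩
  set F : ℝ × ℝ → ℂ := fun y => ∫ θ in Ioo (-π) π, cexp (I * ((t * ph ε (dt y θ) : ℝ) : ℂ)) *
    (A (dt y θ) * g θ) with hF
  set X : ℝ≥0∞ := C6 * ENNReal.ofReal ((1 + Real.log t) ^ 2 / t ^ 2) * B ^ 2 *
    ∫⁻ θ in Ioo (-π) π, ‖g θ‖ₑ ^ 2 with hX
  have hj : ∀ j : ℕ, ∫⁻ y in Zs Y1 ((1 / 2) ^ j), ‖F y‖ₑ ^ 4 ≤
      (N : ℝ≥0∞) ^ 3 * (ENNReal.ofReal ((1 / 4) ^ j) * X) := by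
    intro j
    have hδ0 : (0 : ℝ) < (1 / 2) ^ j := by positivity
    have hδ1 : ((1 : ℝ) / 2) ^ j ≤ 1 := pow_le_one₀ (by norm_num) (by norm_num)
    have hn : ((2 ^ j * n0 : ℕ) : ℝ) * ((1 / 2) ^ j * h0) = π := by
      push_cast
      rw [hh0, div_pow, one_pow]
      field_simp
    have h1 := shell_bd hY1 hY hδ0 hδ1 hh0p hh0r hr1 hn hAc (fun y => (hAb y).1) hA' ε t
      (K := C6 * ENNReal.ofReal ((1 + Real.log t) ^ 2 / t ^ 2)) (fun G B' hG hG0 hGB =>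
        H6 _ ε t hδ0.le hδ1 hε hεA ht A ⟨A1, A2, hA2, hA1, hA1', hAb⟩ G B' hG
          (fun x hx => hG0 x (lt_of_le_of_lt (min_le_left _ _) hx)) hGB) hg hB
    have h2 : (((1 : ℝ) / 2) ^ j) ^ 2 = (1 / 4) ^ j := by
      rw [← pow_mul, mul_comm, pow_mul]; norm_num
    rw [h2] at h1
    exact h1
  have hcov : ∀ y, y ∉ ⋃ j : ℕ, Zs Y1 ((1 / 2) ^ j) → F y = 0 := by
    intro y hy
    have hq : qq y < Y1 ^ 2 := by
      by_contra hcon
      push Not at hcon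
      apply hy
      obtain ⟨j, hj1, hj2⟩ := exists_nat_pow_near (x := qq y / Y1 ^ 2) (y := 4)
        ((one_le_div (by positivity)).mpr hcon) (by norm_num)
      rw [mem_iUnion]
      refine ⟨j, ?_⟩
      have h2 : (((1 : ℝ) / 2) ^ j) ^ 2 = (4 ^ j)⁻¹ := by
        rw [← pow_mul, mul_comm, pow_mul, ← inv_pow]; norm_num
      rw [le_div_iff₀ (by positivity)] at hj1
      rw [div_lt_iff₀ (by positivity)] at hj2
      constructor
      · rw [h2, ← div_eq_inv_mul, le_div_iff₀ (by positivity)]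
        linarith
      · rw [h2, ← div_eq_inv_mul, div_lt_iff₀ (by positivity)]
        rw [pow_succ] at hj2
        linarith
    simp only [hF]
    apply setIntegral_eq_zero_of_forall_eq_zero
    intro θ _
    have h2 : A (dt y θ) = 0 := by
      apply hA
      intro h3
      have := dt_sq_le y θ
      nlinarith [h3.1]
    rw [h2, zero_mul, mul_zero]
  have hZm : MeasurableSet (⋃ j : ℕ, Zs Y1 ((1 / 2) ^ j)) :=
    MeasurableSet.iUnion fun j => Zs_meas _ _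
  calc ∫⁻ y : ℝ × ℝ, ‖F y‖ₑ ^ 4 = ∫⁻ y in ⋃ j : ℕ, Zs Y1 ((1 / 2) ^ j), ‖F y‖ₑ ^ 4 := by
        rw [← lintegral_indicator hZm]
        congr 1
        funext y
        by_cases hy : y ∈ ⋃ j : ℕ, Zs Y1 ((1 / 2) ^ j)
        · rw [indicator_of_mem hy]
        · rw [indicator_of_notMem hy, hcov y hy]
          simp
    _ ≤ ∑' j : ℕ, ∫⁻ y in Zs Y1 ((1 / 2) ^ j), ‖F y‖ₑ ^ 4 := lintegral_iUnion_le _ _
    _ ≤ ∑' j : ℕ, (N : ℝ≥0∞) ^ 3 * (ENNReal.ofReal ((1 / 4) ^ j) * X) :=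
        ENNReal.tsum_le_tsum hj
    _ = (N : ℝ≥0∞) ^ 3 * ((∑' j : ℕ, ENNReal.ofReal ((1 / 4) ^ j)) * X) := by
        rw [ENNReal.tsum_mul_left, ENNReal.tsum_mul_right]
    _ ≤ (N : ℝ≥0∞) ^ 3 * (2 * X) := by
        gcongr
        rw [← ENNReal.ofReal_tsum_of_nonneg (fun j => by positivity)
          (summable_geometric_of_lt_one (by norm_num) (by norm_num)),
          tsum_geometric_of_lt_one (by norm_num) (by norm_num)]
        have h2 : (2 : ℝ≥0∞) = ENNReal.ofReal 2 := by norm_num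
        rw [h2]
        exact ENNReal.ofReal_le_ofReal (by norm_num)
    _ = ((2 * N ^ 3 * C6 : ℝ≥0) : ℝ≥0∞) * ENNReal.ofReal ((1 + Real.log t) ^ 2 / t ^ 2) * B ^ 2 *
          ∫⁻ θ in Ioo (-π) π, ‖g θ‖ₑ ^ 2 := by
        rw [hX]
        push_cast
        ring

end Pool.Agent.TH857.MV7
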